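import Pool.Agent.Helper40.Frob.Semis

/-!
# Multiplicities of eigenvalues of Frobenius through the slope `< 1` part

`R` is the integral characteristic polynomial of the Frobenius `Fr = q F`, `P` the one of `F`.
-/

open Polynomial

namespace Pool.Agent.Helper44.FrobHW

open Pool.Agent.Helper40.Frob

/-- the characteristic polynomial of `F` from the one of `q F` -/
noncomputable def tw (q : ℕ) (R : ℤ[X]) : ℚ[X] :=
  C (((q : ℚ) ^ R.natDegree)⁻¹) * (R.map (Int.castRingHom ℚ)).comp (C (q : ℚ) * X)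

theorem tw_coeff (q : ℕ) (R : ℤ[X]) (i : ℕ) :
    (tw q R).coeff i = ((q : ℚ) ^ R.natDegree)⁻¹ * ((R.coeff i : ℚ) * (q : ℚ) ^ i) := by
  unfold tw
  rw [coeff_C_mul, comp_C_mul_X_coeff, coeff_map]
  rfl

theorem tw_mul {q : ℕ} {R S : ℤ[X]} (hR : R ≠ 0) (hS : S ≠ 0) :
    tw q (R * S) = tw q R * tw q S := by
  unfold tw
  rw [natDegree_mul hR hS, pow_add, mul_inv, C_mul, Polynomial.map_mul, mul_comp]
  ring

theorem tw_one {q : ℕ} : tw q 1 = 1 := by
  unfold tw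
  simp

theorem tw_pow {q : ℕ} {R : ℤ[X]} (hR : R ≠ 0) (e : ℕ) : tw q (R ^ e) = tw q R ^ e := by
  induction e with
  | zero => rw [pow_zero, pow_zero, tw_one]
  | succ e ih => rw [pow_succ, pow_succ, tw_mul (pow_ne_zero _ hR) hR, ih]

theorem tw_natDegree {q : ℕ} (hq : 0 < q) {R : ℤ[X]} (hR : R ≠ 0) :
    (tw q R).natDegree = R.natDegree := by
  have hq0 : (q : ℚ) ≠ 0 := by exact_mod_cast hq.ne'
  apply le_antisymm
  · rw [natDegree_le_iff_coeff_eq_zero]
    intro i hi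
    rw [tw_coeff, coeff_eq_zero_of_natDegree_lt hi]
    simp
  · apply le_natDegree_of_ne_zero
    rw [tw_coeff]
    have : (R.coeff R.natDegree : ℚ) ≠ 0 := by
      exact_mod_cast leadingCoeff_ne_zero.2 hR
    positivity

theorem tw_monic {q : ℕ} (hq : 0 < q) {R : ℤ[X]} (hR : R.Monic) : (tw q R).Monic := by
  have hq0 : (q : ℚ) ≠ 0 := by exact_mod_cast hq.ne'
  unfold Monic leadingCoeff
  rw [tw_natDegree hq hR.ne_zero, tw_coeff]
  have : R.coeff R.natDegree = 1 := hR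
  rw [this]
  field_simp
  norm_num

theorem tw_ne_zero {q : ℕ} (hq : 0 < q) {R : ℤ[X]} (hR : R ≠ 0) : tw q R ≠ 0 := by
  have hq0 : (q : ℚ) ≠ 0 := by exact_mod_cast hq.ne'
  intro h
  have h1 := tw_coeff q R R.natDegree
  rw [h, coeff_zero] at h1
  have : (R.coeff R.natDegree : ℚ) ≠ 0 := by
    exact_mod_cast leadingCoeff_ne_zero.2 hR
  have h2 : ((q : ℚ) ^ R.natDegree)⁻¹ * ((R.coeff R.natDegree : ℚ) * (q : ℚ) ^ R.natDegree) ≠ 0 := by
    positivity
  exact h2 h1.symm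

/-- an integral form of the twisted polynomial -/
theorem tw_integral {q : ℕ} (hq : 0 < q) {R : ℤ[X]} :
    (R.comp (C (q : ℤ) * X)).map (Int.castRingHom ℚ) = C ((q : ℚ) ^ R.natDegree) * tw q R := by
  have hq0 : (q : ℚ) ^ R.natDegree ≠ 0 := pow_ne_zero _ (by exact_mod_cast hq.ne')
  unfold tw
  rw [← mul_assoc, ← C_mul, mul_inv_cancel₀ hq0, C_1, one_mul, map_comp]
  simp

/-- the leading coefficient of a primitive multiple is divisible by `p` -/
theorem lead_dvd {p : ℕ} (hp : p.Prime) {P : ℚ[X]} (hPm : P.Monic)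
    (hW : ∀ z : ℂ, aeval z P = 0 → ‖z‖ = 1) {P0 : ℤ[X]} {D : ℕ}
    (hP0 : P0.map (Int.castRingHom ℚ) = C ((p : ℚ) ^ D) * P)
    {Q : ℚ[X]} (hQ : Irreducible Q) (hQ1 : NoUnityRoot Q) (hQP : Q ∣ P)
    {Q0 : ℤ[X]} {c : ℚ} (hc : c ≠ 0) (hprim : Q0.IsPrimitive)
    (hQ0 : Q0.map (Int.castRingHom ℚ) = C c * Q) : (p : ℤ) ∣ Q0.leadingCoeff := by
  have hp0 : ((p : ℚ) ^ D) ≠ 0 := pow_ne_zero _ (by exact_mod_cast hp.ne_zero)
  have hinj : Function.Injective (Int.castRingHom ℚ) := Int.cast_injective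
  obtain ⟨R0, hR0⟩ : Q0 ∣ P0 := by
    rw [IsPrimitive.Int.dvd_iff_map_cast_dvd_map_cast _ _ hprim, hQ0, hP0]
    have h1 : C c * Q ∣ C c * P := mul_dvd_mul_left _ hQP
    refine h1.trans ?_
    refine ⟨C (c⁻¹ * (p : ℚ) ^ D), ?_⟩
    rw [C_mul]
    have h2 : C c * C (c⁻¹) = (1 : ℚ[X]) := by
      rw [← C_mul, mul_inv_cancel₀ hc, C_1]
    calc C ((p : ℚ) ^ D) * P = (C c * C (c⁻¹)) * (C ((p : ℚ) ^ D) * P) := by
          rw [h2, one_mul]
      _ = _ := by ring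
  have hlead : P0.leadingCoeff = (p : ℤ) ^ D := by
    have h1 : (P0.map (Int.castRingHom ℚ)).leadingCoeff = (p : ℚ) ^ D := by
      rw [hP0, leadingCoeff_mul, leadingCoeff_C, hPm.leadingCoeff, mul_one]
    rw [leadingCoeff_map_of_injective hinj] at h1
    have h2 : ((P0.leadingCoeff : ℤ) : ℚ) = (((p : ℤ) ^ D : ℤ) : ℚ) := by
      push_cast
      exact h1
    exact_mod_cast h2
  have hpp : Prime (p : ℤ) := Nat.prime_iff_prime_int.1 hp
  by_contra hn
  have h1 : Q0.leadingCoeff ∣ (p : ℤ) ^ D := by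
    rw [← hlead, hR0, leadingCoeff_mul]
    exact dvd_mul_right _ _
  obtain ⟨i, -, hi⟩ := (dvd_prime_pow hpp D).1 h1
  have hi0 : i = 0 := by
    by_contra hi0
    apply hn
    exact (dvd_pow_self (p : ℤ) hi0).trans hi.symm.dvd
  rw [hi0, pow_zero] at hi
  refine kronecker hQ (fun z hz => hW z ?_) hQ1 hQ0 (associated_one_iff_isUnit.1 hi)
  obtain ⟨R, hR⟩ := hQP
  rw [hR, map_mul, hz, zero_mul]

/-! ## the `p`-adic form -/

section padic

variable {p : ℕ} [Fact p.Prime]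

/-- a polynomial all of whose irreducible factors divide an integral monic polynomial is
integral up to a constant -/
theorem integral_of_factors {B : ℤ_[p][X]} (hB : B.Monic) (f : ℚ_[p][X]) (hf : f ≠ 0)
    (h : ∀ g : ℚ_[p][X], Irreducible g → g ∣ f → g ∣ B.map (algebraMap ℤ_[p] ℚ_[p])) :
    ∃ (c : ℚ_[p]) (f' : ℤ_[p][X]), f'.Monic ∧ f = C c * f'.map (algebraMap ℤ_[p] ℚ_[p]) := by
  induction f using WfDvdMonoid.induction_on_irreducible with
  | zero => exact absurd rfl hf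
  | unit u hu =>
    obtain ⟨c, -, rfl⟩ := Polynomial.isUnit_iff.1 hu
    exact ⟨c, 1, monic_one, by simp⟩
  | mul a i ha hi ih =>
    obtain ⟨c, f', hf', h1⟩ := ih ha (fun g hg hga => h g hg (hga.mul_left i))
    obtain ⟨i', hi'⟩ := IsIntegrallyClosed.eq_map_mul_C_of_dvd ℚ_[p] hB
      (h i hi (dvd_mul_right i a))
    have hil : i.leadingCoeff ≠ 0 := leadingCoeff_ne_zero.2 hi.ne_zero
    have hi'm : i'.Monic := by
      have h2 : (i'.map (algebraMap ℤ_[p] ℚ_[p])).Monic := by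
        have h3 : (i'.map (algebraMap ℤ_[p] ℚ_[p]) * C i.leadingCoeff).leadingCoeff =
            i.leadingCoeff := by rw [hi']
        rw [leadingCoeff_mul, leadingCoeff_C] at h3
        exact mul_right_cancel₀ hil (by rw [h3, one_mul])
      exact monic_of_injective (FaithfulSMul.algebraMap_injective ℤ_[p] ℚ_[p]) h2
    refine ⟨i.leadingCoeff * c, i' * f', hi'm.mul hf', ?_⟩
    rw [Polynomial.map_mul, C_mul]
    calc i * a = (i'.map (algebraMap ℤ_[p] ℚ_[p]) * C i.leadingCoeff) *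
          (C c * f'.map (algebraMap ℤ_[p] ℚ_[p])) := by rw [hi', ← h1]
      _ = _ := by ring

theorem padic_bound {P : ℚ[X]} (hPm : P.Monic)
    (hW : ∀ z : ℂ, aeval z P = 0 → ‖z‖ = 1) {P0 : ℤ[X]} {D : ℕ}
    (hP0 : P0.map (Int.castRingHom ℚ) = C ((p : ℚ) ^ D) * P)
    {A : ℚ_[p][X]} {B : ℤ_[p][X]} (hB : B.Monic)
    (hAB : P.map (algebraMap ℚ ℚ_[p]) = A * B.map (algebraMap ℤ_[p] ℚ_[p]))
    {m : ℕ} (hm : ∀ g : ℚ_[p][X], Irreducible g → ¬ g ^ (m + 1) ∣ A)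
    {Q : ℚ[X]} (hQ : Irreducible Q) (hQ1 : NoUnityRoot Q) {e : ℕ} (he : Q ^ e ∣ P) :
    e ≤ m := by
  have hp : p.Prime := Fact.out
  rcases Nat.eq_zero_or_pos e with rfl | hepos
  · exact Nat.zero_le _
  have hQP : Q ∣ P := (dvd_pow_self Q hepos.ne').trans he
  obtain ⟨Q0, c, hc, hprim, hQ0⟩ := exists_primitive hQ.ne_zero
  have hl := lead_dvd hp hPm hW hP0 hQ hQ1 hQP hc hprim hQ0
  set φ := algebraMap ℤ_[p] ℚ_[p] with hφ
  set Qp := Q.map (algebraMap ℚ ℚ_[p]) with hQp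
  have hQp0 : Qp ≠ 0 := by
    rw [hQp, Polynomial.map_ne_zero_iff (algebraMap ℚ ℚ_[p]).injective]
    exact hQ.ne_zero
  obtain ⟨g, hg, hgQ, hgB⟩ : ∃ g : ℚ_[p][X], Irreducible g ∧ g ∣ Qp ∧ ¬ g ∣ B.map φ := by
    by_contra hcon
    push Not at hcon
    obtain ⟨d, f', hf'm, hf'⟩ := integral_of_factors hB Qp hQp0 hcon
    -- `Q0` becomes its leading coefficient times `f'`
    have h1 : Q0.map (Int.castRingHom ℚ_[p]) = C ((c : ℚ_[p]) * d) * f'.map φ := by
      have h2 : Q0.map (Int.castRingHom ℚ_[p]) =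
          (Q0.map (Int.castRingHom ℚ)).map (algebraMap ℚ ℚ_[p]) := by
        rw [Polynomial.map_map]
        congr 1
      rw [h2, hQ0, Polynomial.map_mul, map_C, ← hQp, hf', C_mul, mul_assoc]
      rfl
    have hinjp : Function.Injective (Int.castRingHom ℚ_[p]) := Int.cast_injective
    have h3 : (Q0.leadingCoeff : ℚ_[p]) = (c : ℚ_[p]) * d := by
      have h4 := congrArg leadingCoeff h1
      rw [leadingCoeff_map_of_injective hinjp, leadingCoeff_mul, leadingCoeff_C,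
        (hf'm.map φ).leadingCoeff, mul_one] at h4
      exact h4
    have h5 : ∀ i, (p : ℤ) ∣ Q0.coeff i := by
      intro i
      have h6 := congrArg (fun f => coeff f i) h1
      simp only [coeff_map, coeff_C_mul] at h6
      rw [← h3] at h6
      rw [← Padic.norm_intCast_lt_one_iff]
      change ‖(Int.castRingHom ℚ_[p]) (Q0.coeff i)‖ < 1
      rw [h6, norm_mul]
      have h7 : ‖(Q0.leadingCoeff : ℚ_[p])‖ < 1 := Padic.norm_intCast_lt_one_iff.2 hl
      have h8 : ‖φ (f'.coeff i)‖ ≤ 1 := (f'.coeff i).2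
      calc ‖(Q0.leadingCoeff : ℚ_[p])‖ * ‖φ (f'.coeff i)‖ ≤ ‖(Q0.leadingCoeff : ℚ_[p])‖ * 1 :=
            mul_le_mul_of_nonneg_left h8 (norm_nonneg _)
        _ < 1 := by rw [mul_one]; exact h7
    have h9 : C (p : ℤ) ∣ Q0 := by
      rw [C_dvd_iff_dvd_coeff]
      exact h5
    have h10 := hprim _ h9
    rw [Int.isUnit_iff] at h10
    have := hp.two_le
    omega
  have h1 : g ^ e ∣ A * B.map φ := by
    rw [← hAB]
    calc g ^ e ∣ Qp ^ e := pow_dvd_pow_of_dvd hgQ e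
      _ = (Q ^ e).map (algebraMap ℚ ℚ_[p]) := by rw [Polynomial.map_pow]
      _ ∣ P.map (algebraMap ℚ ℚ_[p]) := Polynomial.map_dvd _ he
  have h2 : g ^ e ∣ A := by
    rw [mul_comm] at h1
    exact hg.prime.pow_dvd_of_dvd_mul_left e hgB h1
  by_contra hem
  push Not at hem
  exact hm g hg ((pow_dvd_pow g hem).trans h2)

end padic

end Pool.Agent.Helper44.FrobHW
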