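import Pool.Agent.Helper44.FrobHW.ModP

/-!
# The number of eigenvalues that are roots of unity
-/

open Polynomial Module

namespace Pool.Agent.Helper44.FrobHW

open Pool.Agent.Helper40.Frob

/-! ## linear algebra -/

section linalg

variable {K V : Type*} [Field K] [AddCommGroup V] [Module K V] [FiniteDimensional K V]

theorem charpoly_dvd_of_coprime (T : End K V) {G H : K[X]} (hG : aeval T G = 0)
    (hGH : IsCoprime G H) (h : T.charpoly ∣ G * H) : T.charpoly ∣ G := by
  have hcop : IsCoprime T.charpoly H := by
    rw [Polynomial.isCoprime_iff_aeval_ne_zero_of_isAlgClosed K (AlgebraicClosure K)]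
    intro μ
    by_contra hcon
    push Not at hcon
    obtain ⟨h1, h2⟩ := hcon
    have h3 : (T.baseChange (AlgebraicClosure K)).charpoly.IsRoot μ := by
      rw [LinearMap.charpoly_baseChange, IsRoot, eval_map_algebraMap]
      exact h1
    rw [← Module.End.hasEigenvalue_iff_isRoot_charpoly] at h3
    obtain ⟨v, hv⟩ := h3.exists_hasEigenvector
    have h4 : aeval (T.baseChange (AlgebraicClosure K)) (G.map (algebraMap K (AlgebraicClosure K))) v
        = (G.map (algebraMap K (AlgebraicClosure K))).eval μ • v :=
      Module.End.aeval_apply_of_hasEigenvector hv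
    have h5 : aeval (T.baseChange (AlgebraicClosure K)) (G.map (algebraMap K (AlgebraicClosure K)))
        = (aeval T G).baseChange (AlgebraicClosure K) := by
      rw [aeval_map_algebraMap]
      have := (Polynomial.aeval_algHom_apply (Module.End.baseChangeHom K (AlgebraicClosure K) V) T G)
      exact this
    rw [h5, hG, LinearMap.baseChange_zero, LinearMap.zero_apply, eval_map_algebraMap] at h4
    have h6 : aeval μ G = 0 := by
      by_contra hne
      exact hv.2 ((smul_eq_zero.1 h4.symm).resolve_left hne)
    have h7 := (Polynomial.isCoprime_iff_aeval_ne_zero_of_isAlgClosed K (AlgebraicClosure K) G H).1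
      hGH μ
    rcases h7 with h7 | h7
    · exact h7 h6
    · exact h7 h2
  exact hcop.dvd_of_dvd_mul_right h

/-- the kernel of a coprime factor -/
theorem finrank_ker_le (F : End K V) {G H : K[X]} (hGH : IsCoprime G H)
    (h : F.charpoly = G * H) : finrank K (LinearMap.ker (aeval F G)) ≤ G.natDegree := by
  classical
  set W := LinearMap.ker (aeval F G) with hW
  set W' := LinearMap.ker (aeval F H) with hW'
  have hcG : Commute (aeval F G) F := by
    have h1 : Commute (aeval F G) (aeval F (X : K[X])) := Commute.map (Commute.all G X) (aeval F)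
    rwa [aeval_X] at h1
  have hcH : Commute (aeval F H) F := by
    have h1 : Commute (aeval F H) (aeval F (X : K[X])) := Commute.map (Commute.all H X) (aeval F)
    rwa [aeval_X] at h1
  have hWF : ∀ x ∈ W, F x ∈ W := by
    intro x hx
    rw [hW, LinearMap.mem_ker] at hx ⊢
    have := congrArg (fun g : End K V => g x) hcG.eq
    simp only [Module.End.mul_apply] at this
    rw [this, hx, map_zero]
  have hWF' : ∀ x ∈ W', F x ∈ W' := by
    intro x hx
    rw [hW', LinearMap.mem_ker] at hx ⊢
    have := congrArg (fun g : End K V => g x) hcH.eq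
    simp only [Module.End.mul_apply] at this
    rw [this, hx, map_zero]
  have hcompl : IsCompl W W' := by
    obtain ⟨a, b, hab⟩ := hGH
    constructor
    · rw [Submodule.disjoint_def]
      intro x hx hx'
      rw [hW, LinearMap.mem_ker] at hx
      rw [hW', LinearMap.mem_ker] at hx'
      have h1 : aeval F (a * G + b * H) x = x := by rw [hab, map_one, Module.End.one_apply]
      rw [← h1, map_add, map_mul, map_mul, LinearMap.add_apply, Module.End.mul_apply,
        Module.End.mul_apply, hx, hx', map_zero, map_zero, add_zero]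
    · rw [codisjoint_iff, eq_top_iff]
      intro x _
      rw [Submodule.mem_sup]
      have h0 : aeval F (G * H) = 0 := by rw [← h]; exact F.aeval_self_charpoly
      refine ⟨aeval F (b * H) x, ?_, aeval F (a * G) x, ?_, ?_⟩
      · rw [hW, LinearMap.mem_ker, ← Module.End.mul_apply, ← map_mul,
          show G * (b * H) = b * (G * H) by ring, map_mul, h0, mul_zero, LinearMap.zero_apply]
      · rw [hW', LinearMap.mem_ker, ← Module.End.mul_apply, ← map_mul,
          show H * (a * G) = a * (G * H) by ring, map_mul, h0, mul_zero, LinearMap.zero_apply]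
      · rw [← LinearMap.add_apply, ← map_add, add_comm (b * H), hab, map_one, Module.End.one_apply]
  let e := Submodule.prodEquivOfIsCompl W W' hcompl
  have hconj : e.conj ((F.restrict hWF).prodMap (F.restrict hWF')) = F := by
    apply LinearMap.ext
    intro x
    obtain ⟨⟨w, w'⟩, rfl⟩ := e.surjective x
    rw [LinearEquiv.conj_apply_apply, LinearEquiv.symm_apply_apply]
    simp [e, LinearMap.restrict_apply]
  have hchar : F.charpoly = (F.restrict hWF).charpoly * (F.restrict hWF').charpoly := by
    rw [← LinearMap.charpoly_prodMap, ← LinearEquiv.charpoly_conj e, hconj]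
  have hann : aeval (F.restrict hWF) G = 0 := by
    apply LinearMap.ext
    intro x
    apply Subtype.ext
    have h1 : ((aeval (F.restrict hWF) G x : W) : V) = aeval F G (x : V) := by
      rw [Polynomial.aeval_endomorphism, Polynomial.aeval_endomorphism]
      simp only [Polynomial.sum_def]
      rw [AddSubmonoidClass.coe_finsetSum]
      apply Finset.sum_congr rfl
      intro i _
      rw [Submodule.coe_smul, Module.End.pow_restrict]
      rfl
    rw [h1]
    exact x.2
  have hdvd := charpoly_dvd_of_coprime (F.restrict hWF) hann hGH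
    (by rw [← h, hchar]; exact dvd_mul_right _ _)
  have hG0 : G ≠ 0 := by
    rintro rfl
    rw [zero_mul] at h
    exact F.charpoly_monic.ne_zero h
  rw [← LinearMap.charpoly_natDegree (F.restrict hWF)]
  exact natDegree_le_of_dvd hdvd hG0

end linalg

/-- splitting off the part dividing a power of `X ^ m - 1` -/
theorem exists_split (S : ℚ[X]) (P : ℚ[X]) (hP : P ≠ 0) :
    ∃ (G H : ℚ[X]) (k : ℕ), P = G * H ∧ G ∣ S ^ k ∧ IsCoprime H S := by
  induction hn : P.natDegree using Nat.strong_induction_on generalizing P with
  | _ n ih =>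
    by_cases hc : IsCoprime P S
    · exact ⟨1, P, 0, by rw [one_mul], by rw [pow_zero], hc⟩
    · -- a common irreducible factor
      have hD : ¬ IsUnit (EuclideanDomain.gcd P S) := by
        intro h
        exact hc ((EuclideanDomain.gcd_isUnit_iff).1 h)
      set D := EuclideanDomain.gcd P S with hDdef
      have hDP : D ∣ P := EuclideanDomain.gcd_dvd_left P S
      have hDS : D ∣ S := EuclideanDomain.gcd_dvd_right P S
      have hD0 : D ≠ 0 := fun h0 => hP (by rw [h0] at hDP; exact zero_dvd_iff.1 hDP)
      obtain ⟨P', hP'⟩ := hDP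
      have hP'0 : P' ≠ 0 := by
        rintro rfl
        rw [mul_zero] at hP'
        exact hP hP'
      have hDpos : 0 < D.natDegree := by
        rw [Nat.pos_iff_ne_zero]
        intro h0
        apply hD
        rw [eq_C_of_natDegree_eq_zero h0] at hD0 ⊢
        exact isUnit_C.2 (isUnit_iff_ne_zero.2 (fun h => hD0 (by rw [h, C_0])))
      have hdeg : P'.natDegree < n := by
        rw [← hn, hP', natDegree_mul hD0 hP'0]
        omega
      obtain ⟨G, H, k, h1, h2, h3⟩ := ih _ hdeg P' hP'0 rfl
      refine ⟨D * G, H, k + 1, by rw [hP', h1, mul_assoc], ?_, h3⟩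
      rw [pow_succ, mul_comm]
      exact mul_dvd_mul h2 hDS

theorem finrank_genEig_le {K V : Type*} [Field K] [CharZero K] [AddCommGroup V] [Module K V]
    [FiniteDimensional K V] (F : End K V) {P : ℚ[X]} (hP : P.map (algebraMap ℚ K) = F.charpoly)
    {m : ℕ} {G H : ℚ[X]} {k : ℕ} (hGH : P = G * H) (hG : G ∣ (X ^ m - 1) ^ k)
    (hH : IsCoprime H (X ^ m - 1)) :
    finrank K ((F ^ m).maxGenEigenspace 1) ≤ G.natDegree := by
  have hcop : IsCoprime (G.map (algebraMap ℚ K)) (H.map (algebraMap ℚ K)) := by
    have h1 : IsCoprime G H := (hH.symm.pow_left (m := k)).of_isCoprime_of_dvd_left hG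
    exact h1.map (mapRingHom (algebraMap ℚ K))
  have h1 := finrank_ker_le F hcop (by rw [← hP, hGH, Polynomial.map_mul])
  rw [natDegree_map] at h1
  refine le_trans ?_ h1
  apply Submodule.finrank_mono
  intro x hx
  rw [Module.End.mem_maxGenEigenspace] at hx
  obtain ⟨j, hj⟩ := hx
  rw [one_smul] at hj
  rw [LinearMap.mem_ker]
  change ev F G x = 0
  have hPF : ev F P = 0 := by
    unfold ev
    rw [hP]
    exact F.aeval_self_charpoly
  have hcop2 : IsCoprime ((X ^ m - 1) ^ j) H := hH.symm.pow_left
  apply ev_coprime hcop2 (F := F)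
  · rw [← ev_apply_mul, mul_comm, ev_apply_mul, ev_pow, ev_X_pow_sub, hj, map_zero]
  · rw [← ev_apply_mul, mul_comm, ← hGH, hPF, LinearMap.zero_apply]

end Pool.Agent.Helper44.FrobHW
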