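import Pool.Agent.Helper44.FrobHW.Basic

/-!
# The characteristic polynomial of Frobenius modulo `p` (ordinary case)
-/

open Polynomial

namespace Pool.Agent.Helper44.FrobHW

open Pool.Agent.Helper40.Frob

/-- reduction of the primitive twisted polynomial has degree at most the order of vanishing of
the reduction of the untwisted one -/
theorem natDegree_le_of_coeff {p a : ℕ} (hp : p.Prime) (ha : 0 < a) {S : ℤ[X]} {c : ℚ}
    {S0 : ℤ[X]} (hS0 : S0.map (Int.castRingHom ℚ) = C c * tw (p ^ a) S) {t : ℕ}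
    (ht : ¬ (p : ℤ) ∣ S.coeff t) :
    (S0.map (Int.castRingHom (ZMod p))).natDegree ≤ t := by
  have : Fact p.Prime := ⟨hp⟩
  rw [natDegree_le_iff_coeff_eq_zero]
  intro i hi
  rw [coeff_map]
  change ((S0.coeff i : ℤ) : ZMod p) = 0
  rw [ZMod.intCast_zmod_eq_zero_iff_dvd]
  have hco : ∀ j, (S0.coeff j : ℚ) = c * ((((p ^ a : ℕ) : ℚ) ^ S.natDegree)⁻¹ *
      ((S.coeff j : ℚ) * ((p ^ a : ℕ) : ℚ) ^ j)) := by
    intro j
    have h1 := congrArg (fun f => coeff f j) hS0
    simp only [coeff_map, coeff_C_mul, tw_coeff] at h1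
    exact h1
  have h2 : S0.coeff i * S.coeff t = S0.coeff t * S.coeff i * ((p : ℤ) ^ a) ^ (i - t) := by
    have h3 : ((S0.coeff i * S.coeff t : ℤ) : ℚ) =
        ((S0.coeff t * S.coeff i * ((p : ℤ) ^ a) ^ (i - t) : ℤ) : ℚ) := by
      push_cast
      rw [hco i, hco t]
      obtain ⟨k, rfl⟩ := Nat.exists_eq_add_of_lt hi
      rw [show t + k + 1 - t = k + 1 by omega]
      push_cast
      ring
    exact_mod_cast h3
  have hpp : Prime (p : ℤ) := Nat.prime_iff_prime_int.1 hp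
  have h3 : (p : ℤ) ∣ S0.coeff i * S.coeff t := by
    rw [h2]
    apply Dvd.dvd.mul_left
    exact (dvd_pow_self (p : ℤ) ha.ne').trans (dvd_pow_self _ (by omega))
  exact (hpp.dvd_or_dvd h3).resolve_right ht

/-- a nonzero polynomial has a coefficient not divisible by `p` at its trailing degree mod `p` -/
theorem natDegree_le_trailing {p a : ℕ} (hp : p.Prime) (ha : 0 < a) {S : ℤ[X]} (hS : S.Monic)
    {c : ℚ} {S0 : ℤ[X]} (hS0 : S0.map (Int.castRingHom ℚ) = C c * tw (p ^ a) S) :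
    (S0.map (Int.castRingHom (ZMod p))).natDegree ≤
      (S.map (Int.castRingHom (ZMod p))).natTrailingDegree := by
  have : Fact p.Prime := ⟨hp⟩
  apply natDegree_le_of_coeff hp ha hS0
  have hne : S.map (Int.castRingHom (ZMod p)) ≠ 0 := (hS.map _).ne_zero
  have h1 : (S.map (Int.castRingHom (ZMod p))).coeff
      (S.map (Int.castRingHom (ZMod p))).natTrailingDegree ≠ 0 :=
    trailingCoeff_nonzero_iff_nonzero.2 hne
  rw [coeff_map] at h1
  intro h2
  apply h1
  change ((S.coeff _ : ℤ) : ZMod p) = 0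
  rw [ZMod.intCast_zmod_eq_zero_iff_dvd]
  exact h2

theorem isPrimitive_map_ne_zero {p : ℕ} (hp : p.Prime) {S : ℤ[X]} (hS : S.IsPrimitive) :
    S.map (Int.castRingHom (ZMod p)) ≠ 0 := by
  intro h
  have h1 : C (p : ℤ) ∣ S := by
    rw [C_dvd_iff_dvd_coeff]
    intro i
    rw [← ZMod.intCast_zmod_eq_zero_iff_dvd]
    have := congrArg (fun f => coeff f i) h
    simpa using this
  have h2 := hS _ h1
  rw [Int.isUnit_iff] at h2
  have := hp.two_le
  omega

theorem natTrailingDegree_pow' {K : Type*} [Field K] {f : K[X]} (hf : f ≠ 0) (e : ℕ) :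
    (f ^ e).natTrailingDegree = e * f.natTrailingDegree := by
  induction e with
  | zero => simp
  | succ e ih =>
    rw [pow_succ, natTrailingDegree_mul (pow_ne_zero _ hf) hf, ih]
    ring

/-- the untwisted monic integral form of a monic factor of the twisted polynomial -/
theorem exists_untwist {q : ℕ} (hq : 0 < q) {R : ℤ[X]} (hR : R.Monic) {Q : ℚ[X]}
    (hQ0 : Q ≠ 0) (hQR : Q ∣ tw q R) : ∃ Q1 : ℤ[X], Q1.Monic ∧ Q1 ∣ R ∧
      tw q Q1 = C (Q.leadingCoeff⁻¹) * Q ∧ Q1.natDegree = Q.natDegree := by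
  have hq0 : (q : ℚ) ≠ 0 := by exact_mod_cast hq.ne'
  have hl : Q.leadingCoeff ≠ 0 := leadingCoeff_ne_zero.2 hQ0
  -- the rational polynomial
  set G : ℚ[X] := C ((q : ℚ) ^ Q.natDegree * Q.leadingCoeff⁻¹) * Q.comp (C ((q : ℚ)⁻¹) * X) with hG
  have hGc : ∀ i, G.coeff i = (q : ℚ) ^ Q.natDegree * Q.leadingCoeff⁻¹ *
      (Q.coeff i * ((q : ℚ)⁻¹) ^ i) := by
    intro i
    rw [hG, coeff_C_mul, comp_C_mul_X_coeff]
  have hGd : G.natDegree = Q.natDegree := by
    apply le_antisymm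
    · rw [natDegree_le_iff_coeff_eq_zero]
      intro i hi
      rw [hGc, coeff_eq_zero_of_natDegree_lt hi]
      simp
    · apply le_natDegree_of_ne_zero
      rw [hGc]
      have : Q.coeff Q.natDegree ≠ 0 := hl
      positivity
  have hGm : G.Monic := by
    unfold Monic leadingCoeff
    rw [hGd, hGc]
    have h1 : Q.coeff Q.natDegree = Q.leadingCoeff := rfl
    rw [h1, inv_pow]
    field_simp
  have hGR : G ∣ R.map (algebraMap ℤ ℚ) := by
    obtain ⟨S, hS⟩ := hQR
    have h1 : R.map (Int.castRingHom ℚ) = C ((q : ℚ) ^ R.natDegree) *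
        (tw q R).comp (C ((q : ℚ)⁻¹) * X) := by
      ext i
      rw [coeff_C_mul, comp_C_mul_X_coeff, tw_coeff, coeff_map]
      have h2 : (Int.castRingHom ℚ) (R.coeff i) = (R.coeff i : ℚ) := rfl
      rw [h2, inv_pow]
      field_simp
    have h3 : algebraMap ℤ ℚ = Int.castRingHom ℚ := rfl
    rw [h3, h1, hS, mul_comp]
    have h4 : Q.comp (C ((q : ℚ)⁻¹) * X) = C (((q : ℚ) ^ Q.natDegree * Q.leadingCoeff⁻¹)⁻¹) * G := by
      rw [hG, ← mul_assoc, ← C_mul, inv_mul_cancel₀, C_1, one_mul]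
      positivity
    rw [h4]
    refine ⟨C (((q : ℚ) ^ Q.natDegree * Q.leadingCoeff⁻¹)⁻¹) * C ((q : ℚ) ^ R.natDegree) *
      S.comp (C ((q : ℚ)⁻¹) * X), ?_⟩
    ring
  obtain ⟨Q1, hQ1⟩ := IsIntegrallyClosed.eq_map_mul_C_of_dvd ℚ hR hGR
  rw [hGm.leadingCoeff, C_1, mul_one] at hQ1
  have hQ1m : Q1.Monic := monic_of_injective (FaithfulSMul.algebraMap_injective ℤ ℚ) (hQ1 ▸ hGm)
  have hd : Q1.natDegree = Q.natDegree := by
    rw [← hGd, ← hQ1, natDegree_map_eq_of_injective (FaithfulSMul.algebraMap_injective ℤ ℚ)]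
  refine ⟨Q1, hQ1m, ?_, ?_, hd⟩
  · apply hR.dvd_of_fraction_map_dvd_fraction_map (K := ℚ) hQ1m
    rw [hQ1]
    exact hGR
  · ext i
    rw [tw_coeff, coeff_C_mul, hd]
    have h1 : (Q1.coeff i : ℚ) = G.coeff i := by
      rw [← hQ1, coeff_map]
      rfl
    rw [h1, hGc, inv_pow]
    field_simp

theorem modp_bound {p a : ℕ} (hp : p.Prime) (ha : 0 < a) {R : ℤ[X]} (hR : R.Monic)
    (hW : ∀ z : ℂ, aeval z (tw (p ^ a) R) = 0 → ‖z‖ = 1)
    {K : ℕ} (hK : K ≤ R.natDegree) (hK1 : ¬ (p : ℤ) ∣ R.coeff (R.natDegree - K))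
    (hK2 : ∀ j, K ≤ j → j ≤ R.natDegree → ((p : ℤ) ^ a) ^ (j - K) ∣ R.coeff (R.natDegree - j))
    {m : ℕ} (hm : ∀ g : (ZMod p)[X], Irreducible g → ¬ g ∣ X →
      ¬ g ^ (m + 1) ∣ R.map (Int.castRingHom (ZMod p)))
    {Q : ℚ[X]} (hQ : Irreducible Q) (hQ1 : NoUnityRoot Q) {e : ℕ}
    (he : Q ^ e ∣ tw (p ^ a) R) : e ≤ m := by
  have : Fact p.Prime := ⟨hp⟩
  rcases Nat.eq_zero_or_pos e with rfl | hepos
  · exact Nat.zero_le _
  set q := p ^ a with hqdef
  have hq : 0 < q := pow_pos hp.pos _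
  have hq0 : (q : ℚ) ≠ 0 := by exact_mod_cast hq.ne'
  set n := R.natDegree with hn
  set f : ℤ →+* ZMod p := Int.castRingHom (ZMod p) with hf
  have hinj : Function.Injective (Int.castRingHom ℚ) := Int.cast_injective
  have hQR : Q ∣ tw q R := (dvd_pow_self Q hepos.ne').trans he
  have hl : Q.leadingCoeff ≠ 0 := leadingCoeff_ne_zero.2 hQ.ne_zero
  obtain ⟨Q1, hQ1m, hQ1R, hQ1t, hQ1d⟩ := exists_untwist hq hR hQ.ne_zero hQR
  -- `Q1 ^ e` divides `R`
  have hQeR : Q1 ^ e ∣ R := by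
    obtain ⟨T, hTm, hTR, hTt, hTd⟩ := exists_untwist hq hR (pow_ne_zero e hQ.ne_zero) he
    have h1 : tw q T = tw q (Q1 ^ e) := by
      rw [hTt, tw_pow hQ1m.ne_zero, hQ1t, mul_pow, ← C_pow, leadingCoeff_pow, inv_pow]
    have h2 : T = Q1 ^ e := by
      have hd : T.natDegree = (Q1 ^ e).natDegree := by
        rw [hTd, natDegree_pow, natDegree_pow, hQ1d]
      ext i
      have h3 := congrArg (fun f => coeff f i) h1
      simp only [tw_coeff, hd] at h3
      have h4 : (T.coeff i : ℚ) = ((Q1 ^ e).coeff i : ℚ) := by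
        have h5 : ((q : ℚ) ^ (Q1 ^ e).natDegree)⁻¹ ≠ 0 := by positivity
        have h6 : (q : ℚ) ^ i ≠ 0 := pow_ne_zero _ hq0
        exact mul_right_cancel₀ h6 (mul_left_cancel₀ h5 h3)
      exact_mod_cast h4
    rw [← h2]
    exact hTR
  obtain ⟨S, hS⟩ := hQeR
  have hSm : S.Monic := Monic.of_mul_monic_left (hQ1m.pow e) (hS ▸ hR)
  -- primitive multiples
  obtain ⟨Q0, c, hc, hQ0prim, hQ0⟩ := exists_primitive (tw_ne_zero hq hQ1m.ne_zero)
  obtain ⟨S0, c', hc', hS0prim, hS0⟩ := exists_primitive (tw_ne_zero hq hSm.ne_zero)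
  -- `p` divides the leading coefficient of `Q0`
  have hlead : (p : ℤ) ∣ Q0.leadingCoeff := by
    have h1 : Q0.map (Int.castRingHom ℚ) = C (c * Q.leadingCoeff⁻¹) * Q := by
      rw [hQ0, hQ1t, C_mul, mul_assoc]
    refine lead_dvd hp (tw_monic hq hR) hW (P0 := R.comp (C (q : ℤ) * X)) (D := a * n) ?_ hQ hQ1
      hQR (mul_ne_zero hc (inv_ne_zero hl)) hQ0prim h1
    rw [tw_integral hq, hqdef]
    push_cast
    rw [← pow_mul]
  -- the polynomial `Rh = q ^ K * tw q R`
  have hdiv : ∀ i, (q : ℤ) ^ (n - K) ∣ R.coeff i * (q : ℤ) ^ i := by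
    intro i
    rcases le_or_gt (n - K) i with h1 | h1
    · exact (pow_dvd_pow _ h1).mul_left _
    · have h2 := hK2 (n - i) (by omega) (by omega)
      rw [show n - (n - i) = i by omega] at h2
      have h3 : (q : ℤ) ^ (n - K) = (q : ℤ) ^ (n - i - K) * (q : ℤ) ^ i := by
        rw [← pow_add]
        congr 1
        omega
      rw [h3]
      apply mul_dvd_mul_right
      rw [hqdef]
      push_cast
      exact h2
  obtain ⟨Rh, hRh⟩ : ∃ Rh : ℤ[X], R.comp (C (q : ℤ) * X) = C ((q : ℤ) ^ (n - K)) * Rh := by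
    have : C ((q : ℤ) ^ (n - K)) ∣ R.comp (C (q : ℤ) * X) := by
      rw [C_dvd_iff_dvd_coeff]
      intro i
      rw [comp_C_mul_X_coeff]
      exact hdiv i
    exact this
  have hRhc : ∀ i, (q : ℤ) ^ (n - K) * Rh.coeff i = R.coeff i * (q : ℤ) ^ i := by
    intro i
    have := congrArg (fun f => coeff f i) hRh
    simp only [comp_C_mul_X_coeff, coeff_C_mul] at this
    exact this.symm
  have hqZ : (q : ℤ) ≠ 0 := by exact_mod_cast hq.ne'
  have hRh0 : Rh.coeff (n - K) = R.coeff (n - K) := by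
    have h1 := hRhc (n - K)
    rw [mul_comm (R.coeff _)] at h1
    exact mul_left_cancel₀ (pow_ne_zero _ hqZ) h1
  have hRht : Rh.map (Int.castRingHom ℚ) = C ((q : ℚ) ^ K) * tw q R := by
    ext i
    rw [coeff_map, coeff_C_mul, tw_coeff, ← hn]
    have h1 := hRhc i
    have h2 : (q : ℚ) ^ (n - K) * (Rh.coeff i : ℚ) = (R.coeff i : ℚ) * (q : ℚ) ^ i := by
      exact_mod_cast h1
    have h3 : (q : ℚ) ^ n = (q : ℚ) ^ (n - K) * (q : ℚ) ^ K := by
      rw [← pow_add]
      congr 1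
      omega
    change (Rh.coeff i : ℚ) = _
    rw [h3, ← h2]
    field_simp
  have hpq : (p : ℤ) ∣ (q : ℤ) := by
    rw [hqdef]
    push_cast
    exact dvd_pow_self _ ha.ne'
  -- degree of the reduction of `Rh`
  have hRhp : (Rh.map f).natDegree = n - K := by
    apply le_antisymm
    · rw [natDegree_le_iff_coeff_eq_zero]
      intro i hi
      rw [coeff_map]
      change ((Rh.coeff i : ℤ) : ZMod p) = 0
      rw [ZMod.intCast_zmod_eq_zero_iff_dvd]
      have h1 := hRhc i
      have h2 : (q : ℤ) ^ i = (q : ℤ) ^ (n - K) * (q : ℤ) ^ (i - (n - K)) := by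
        rw [← pow_add]
        congr 1
        omega
      rw [h2, mul_left_comm] at h1
      have h3 := mul_left_cancel₀ (pow_ne_zero _ hqZ) h1
      rw [h3]
      exact (hpq.trans (dvd_pow_self _ (by omega))).mul_left _
    · apply le_natDegree_of_ne_zero
      rw [coeff_map, hRh0]
      change ((R.coeff (n - K) : ℤ) : ZMod p) ≠ 0
      rw [Ne, ZMod.intCast_zmod_eq_zero_iff_dvd]
      exact hK1
  -- order of vanishing of the reduction of `R`
  have hfR : R.map f ≠ 0 := (hR.map f).ne_zero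
  have hRt : (R.map f).natTrailingDegree = n - K := by
    apply le_antisymm
    · apply natTrailingDegree_le_of_ne_zero
      rw [coeff_map]
      change ((R.coeff (n - K) : ℤ) : ZMod p) ≠ 0
      rw [Ne, ZMod.intCast_zmod_eq_zero_iff_dvd]
      exact hK1
    · apply le_natTrailingDegree hfR
      intro i hi
      rw [coeff_map]
      change ((R.coeff i : ℤ) : ZMod p) = 0
      rw [ZMod.intCast_zmod_eq_zero_iff_dvd]
      have h2 := hK2 (n - i) (by omega) (by omega)
      rw [show n - (n - i) = i by omega] at h2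
      refine dvd_trans ?_ h2
      exact (dvd_pow_self (p : ℤ) ha.ne').trans (dvd_pow_self _ (by omega))
  -- `Rh` is associated to `Q0 ^ e * S0`
  have hRhprim : Rh.IsPrimitive := by
    intro r hr
    rw [C_dvd_iff_dvd_coeff] at hr
    have h1 : Rh.coeff n = (q : ℤ) ^ K := by
      have h2 := hRhc n
      have h3 : R.coeff n = 1 := hR
      rw [h3, one_mul] at h2
      have h4 : (q : ℤ) ^ n = (q : ℤ) ^ (n - K) * (q : ℤ) ^ K := by
        rw [← pow_add]
        congr 1
        omega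
      rw [h4] at h2
      exact mul_left_cancel₀ (pow_ne_zero _ hqZ) h2
    have h2 : r ∣ (p : ℤ) ^ (a * K) := by
      have := hr n
      rw [h1, hqdef] at this
      push_cast at this
      rwa [← pow_mul] at this
    have hpp : Prime (p : ℤ) := Nat.prime_iff_prime_int.1 hp
    obtain ⟨i, -, hi⟩ := (dvd_prime_pow hpp _).1 h2
    have hi0 : i = 0 := by
      by_contra hi0
      apply hK1
      rw [← hRh0]
      exact ((dvd_pow_self (p : ℤ) hi0).trans hi.symm.dvd).trans (hr _)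
    rw [hi0, pow_zero] at hi
    exact associated_one_iff_isUnit.1 hi
  have hprodprim : (Q0 ^ e * S0).IsPrimitive := by
    apply IsPrimitive.mul _ hS0prim
    clear he hepos hS
    induction e with
    | zero => rw [pow_zero]; exact isPrimitive_one
    | succ k ih => rw [pow_succ]; exact ih.mul hQ0prim
  have hprodmap : (Q0 ^ e * S0).map (Int.castRingHom ℚ) = C (c ^ e * c') * tw q R := by
    rw [Polynomial.map_mul, Polynomial.map_pow, hQ0, hS0, hS,
      tw_mul (pow_ne_zero _ hQ1m.ne_zero) hSm.ne_zero, tw_pow hQ1m.ne_zero, mul_pow, ← C_pow, C_mul]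
    ring
  have hqK : (q : ℚ) ^ K ≠ 0 := pow_ne_zero _ hq0
  have hcc : c ^ e * c' ≠ 0 := mul_ne_zero (pow_ne_zero _ hc) hc'
  have hd1 : Rh ∣ Q0 ^ e * S0 := by
    rw [IsPrimitive.Int.dvd_iff_map_cast_dvd_map_cast _ _ hRhprim, hRht, hprodmap]
    refine ⟨C (c ^ e * c' * ((q : ℚ) ^ K)⁻¹), ?_⟩
    have : C (c ^ e * c') = C ((q : ℚ) ^ K) * C (c ^ e * c' * ((q : ℚ) ^ K)⁻¹) := by
      rw [← C_mul]
      congr 1
      field_simp
    rw [this]
    ring
  have hd2 : Q0 ^ e * S0 ∣ Rh := by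
    rw [IsPrimitive.Int.dvd_iff_map_cast_dvd_map_cast _ _ hprodprim, hRht, hprodmap]
    refine ⟨C ((q : ℚ) ^ K * (c ^ e * c')⁻¹), ?_⟩
    have : C ((q : ℚ) ^ K) = C (c ^ e * c') * C ((q : ℚ) ^ K * (c ^ e * c')⁻¹) := by
      rw [← C_mul]
      congr 1
      field_simp
    rw [this]
    ring
  have hQ0f : Q0.map f ≠ 0 := isPrimitive_map_ne_zero hp hQ0prim
  have hS0f : S0.map f ≠ 0 := isPrimitive_map_ne_zero hp hS0prim
  have hRhf : Rh.map f ≠ 0 := isPrimitive_map_ne_zero hp hRhprim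
  have hsum : n - K = e * (Q0.map f).natDegree + (S0.map f).natDegree := by
    rw [← hRhp]
    have h1 : (Q0.map f ^ e * S0.map f).natDegree =
        e * (Q0.map f).natDegree + (S0.map f).natDegree := by
      rw [natDegree_mul (pow_ne_zero _ hQ0f) hS0f, natDegree_pow]
    rw [← h1]
    have h2 : (Q0 ^ e * S0).map f = Q0.map f ^ e * S0.map f := by
      rw [Polynomial.map_mul, Polynomial.map_pow]
    rw [← h2]
    apply le_antisymm
    · apply natDegree_le_of_dvd (Polynomial.map_dvd f hd1)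
      rw [h2]
      exact mul_ne_zero (pow_ne_zero _ hQ0f) hS0f
    · exact natDegree_le_of_dvd (Polynomial.map_dvd f hd2) hRhf
  have hQ1f : Q1.map f ≠ 0 := (hQ1m.map f).ne_zero
  have hSf : S.map f ≠ 0 := (hSm.map f).ne_zero
  have hsum2 : n - K = e * (Q1.map f).natTrailingDegree + (S.map f).natTrailingDegree := by
    rw [← hRt, hS, Polynomial.map_mul, Polynomial.map_pow,
      natTrailingDegree_mul (pow_ne_zero _ hQ1f) hSf, natTrailingDegree_pow' hQ1f]
  have hle1 : (Q0.map f).natDegree ≤ (Q1.map f).natTrailingDegree :=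
    natDegree_le_trailing hp ha hQ1m hQ0
  have hle2 : (S0.map f).natDegree ≤ (S.map f).natTrailingDegree :=
    natDegree_le_trailing hp ha hSm hS0
  have hlt : (Q0.map f).natDegree < Q.natDegree := by
    have h1 : Q0.natDegree = Q.natDegree := by
      rw [← natDegree_map_eq_of_injective hinj, hQ0, natDegree_C_mul hc,
        tw_natDegree hq hQ1m.ne_zero, hQ1d]
    rw [← h1]
    apply natDegree_map_lt'
    · change ((Q0.leadingCoeff : ℤ) : ZMod p) = 0
      rw [ZMod.intCast_zmod_eq_zero_iff_dvd]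
      exact hlead
    · rw [h1]
      exact hQ.natDegree_pos
  have heq : (Q1.map f).natTrailingDegree = (Q0.map f).natDegree := by
    by_contra hne
    have h1 : (Q0.map f).natDegree + 1 ≤ (Q1.map f).natTrailingDegree := by omega
    have h2 : e * ((Q0.map f).natDegree + 1) ≤ e * (Q1.map f).natTrailingDegree :=
      Nat.mul_le_mul_left _ h1
    rw [Nat.mul_add] at h2
    omega
  -- the unit part of the reduction of `Q1`
  set t := (Q1.map f).natTrailingDegree with ht
  obtain ⟨U, hU⟩ : X ^ t ∣ Q1.map f := by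
    rw [X_pow_dvd_iff]
    intro d hd
    exact coeff_eq_zero_of_lt_natTrailingDegree hd
  have hU0 : U ≠ 0 := by
    rintro rfl
    rw [mul_zero] at hU
    exact hQ1f hU
  have hUc : U.coeff 0 ≠ 0 := by
    have h1 : (Q1.map f).coeff t ≠ 0 := trailingCoeff_nonzero_iff_nonzero.2 hQ1f
    rw [hU, coeff_X_pow_mul'] at h1
    simpa using h1
  have hUd : 0 < U.natDegree := by
    have h1 : (Q1.map f).natDegree = t + U.natDegree := by
      rw [hU, natDegree_mul (pow_ne_zero _ X_ne_zero) hU0, natDegree_X_pow]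
    rw [hQ1m.natDegree_map, hQ1d] at h1
    omega
  obtain ⟨g, hg, hgU⟩ := exists_irreducible_of_natDegree_pos hUd
  have hgX : ¬ g ∣ X := by
    intro h1
    have h2 : Associated g X := hg.associated_of_dvd irreducible_X h1
    have h3 : X ∣ U := h2.symm.dvd.trans hgU
    rw [X_dvd_iff] at h3
    exact hUc h3
  by_contra hem
  push Not at hem
  apply hm g hg hgX
  calc g ^ (m + 1) ∣ g ^ e := pow_dvd_pow g hem
    _ ∣ (Q1.map f) ^ e := pow_dvd_pow_of_dvd (hgU.trans ⟨X ^ t, by rw [hU, mul_comm]⟩) e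
    _ = (Q1 ^ e).map f := by rw [Polynomial.map_pow]
    _ ∣ R.map f := Polynomial.map_dvd f ⟨S, hS⟩

end Pool.Agent.Helper44.FrobHW
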