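import Pool.Agent.Helper44.FrobHW.Cyc

/-!
# Self-reciprocity and the bound on the cyclotomic part
-/

open Polynomial Module

namespace Pool.Agent.Helper44.FrobHW

open Pool.Agent.Helper40.Frob

theorem coeff_zero_ne {i : ℚ[X]} (hW : ∀ z : ℂ, aeval z i = 0 → ‖z‖ = 1) : i.coeff 0 ≠ 0 := by
  intro h0
  have h1 : aeval (0 : ℂ) i = 0 := by
    rw [← coeff_zero_eq_aeval_zero', h0, map_zero]
  have h2 := hW 0 h1
  rw [norm_zero] at h2
  exact zero_ne_one h2

theorem natDegree_reverse_of {i : ℚ[X]} (h0 : i.coeff 0 ≠ 0) :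
    i.reverse.natDegree = i.natDegree := by
  rw [reverse_natDegree]
  have : i.natTrailingDegree = 0 := by
    rw [natTrailingDegree_eq_zero]
    exact Or.inr h0
  rw [this, Nat.sub_zero]

theorem reverse_irreducible {i : ℚ[X]} (hi : Irreducible i)
    (hW : ∀ z : ℂ, aeval z i = 0 → ‖z‖ = 1) : ∃ c : ℚ, i.reverse = C c * i := by
  have h0 := coeff_zero_ne hW
  -- a complex root
  obtain ⟨z, hz⟩ : ∃ z : ℂ, aeval z i = 0 := by
    have h1 : (i.map (algebraMap ℚ ℂ)).degree ≠ 0 := by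
      rw [degree_map]
      exact hi.degree_pos.ne'
    obtain ⟨z, hz⟩ := IsAlgClosed.exists_root _ h1
    exact ⟨z, by rwa [IsRoot, eval_map_algebraMap] at hz⟩
  have hzn := hW z hz
  have hz0 : z ≠ 0 := by
    rintro rfl
    rw [norm_zero] at hzn
    exact zero_ne_one hzn
  -- the conjugate root
  have hzc : aeval (z⁻¹) i = 0 := by
    have h1 : z⁻¹ = (starRingEnd ℂ) z := by
      rw [Complex.inv_def, Complex.normSq_eq_norm_sq, hzn]
      simp
    rw [h1]
    have h2 : aeval ((starRingEnd ℂ) z) i = (starRingEnd ℂ) (aeval z i) := by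
      rw [aeval_def, aeval_def, hom_eval₂]
      congr 1
      ext
      simp
    rw [h2, hz, map_zero]
  have hrev : aeval z i.reverse = 0 := by
    let _ : Invertible z⁻¹ := invertibleOfNonzero (inv_ne_zero hz0)
    have h1 := (eval₂_reverse_eq_zero_iff (algebraMap ℚ ℂ) z⁻¹ i).2 hzc
    rwa [invOf_eq_inv, inv_inv] at h1
  have hmin : minpoly ℚ z ∣ i := minpoly.dvd ℚ z hz
  have hint : IsIntegral ℚ z := by
    rw [← isAlgebraic_iff_isIntegral]
    exact ⟨i, hi.ne_zero, hz⟩
  have hassoc : Associated (minpoly ℚ z) i :=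
    (minpoly.irreducible hint).associated_of_dvd hi hmin
  have hdvd : i ∣ i.reverse := hassoc.symm.dvd.trans (minpoly.dvd ℚ z hrev)
  obtain ⟨u, hu⟩ := hdvd
  have hr0 : i.reverse ≠ 0 := by
    rw [Ne, reverse_eq_zero]
    exact hi.ne_zero
  have hu0 : u ≠ 0 := by
    rintro rfl
    rw [mul_zero] at hu
    exact hr0 hu
  have hd : u.natDegree = 0 := by
    have h1 : i.reverse.natDegree = i.natDegree + u.natDegree := by
      rw [← natDegree_mul hi.ne_zero hu0, ← hu]
    rw [natDegree_reverse_of h0] at h1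
    omega
  refine ⟨u.coeff 0, ?_⟩
  rw [← eq_C_of_natDegree_eq_zero hd, mul_comm]
  exact hu

theorem reverse_eq {P : ℚ[X]} (hP : P ≠ 0) (hW : ∀ z : ℂ, aeval z P = 0 → ‖z‖ = 1) :
    ∃ c : ℚ, P.reverse = C c * P := by
  induction P using WfDvdMonoid.induction_on_irreducible with
  | zero => exact absurd rfl hP
  | unit u hu =>
    obtain ⟨c, -, rfl⟩ := Polynomial.isUnit_iff.1 hu
    exact ⟨1, by simp⟩
  | mul a i ha hi ih =>
    obtain ⟨c, hc⟩ := ih ha (fun z hz => hW z (by rw [map_mul, hz, mul_zero]))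
    obtain ⟨d, hd⟩ := reverse_irreducible hi (fun z hz => hW z (by rw [map_mul, hz, zero_mul]))
    refine ⟨d * c, ?_⟩
    rw [reverse_mul_of_domain, hc, hd, C_mul]
    ring

/-- coefficients of a monic polynomial with roots of absolute value one are symmetric up to a
sign -/
theorem coeff_symm {P : ℚ[X]} (hP : P.Monic) (hW : ∀ z : ℂ, aeval z P = 0 → ‖z‖ = 1) :
    ∃ c : ℚ, c ≠ 0 ∧ ∀ i ≤ P.natDegree, P.coeff (P.natDegree - i) = c * P.coeff i := by
  obtain ⟨c, hc⟩ := reverse_eq hP.ne_zero hW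
  refine ⟨c, ?_, ?_⟩
  · rintro rfl
    rw [C_0, zero_mul, reverse_eq_zero] at hc
    exact hP.ne_zero hc
  · intro i hi
    have h1 := congrArg (fun f => coeff f i) hc
    simp only [coeff_reverse, coeff_C_mul] at h1
    rw [revAt_le hi] at h1
    exact h1

/-- the integral form `q ^ K * tw q R` -/
theorem exists_Rh {p a : ℕ} (hp : p.Prime) (ha : 0 < a) {R : ℤ[X]} {K : ℕ}
    (hK : K ≤ R.natDegree) (hK1 : ¬ (p : ℤ) ∣ R.coeff (R.natDegree - K))
    (hK2 : ∀ j, K ≤ j → j ≤ R.natDegree → ((p : ℤ) ^ a) ^ (j - K) ∣ R.coeff (R.natDegree - j)) :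
    ∃ Rh : ℤ[X], Rh.map (Int.castRingHom ℚ) = C (((p ^ a : ℕ) : ℚ) ^ K) * tw (p ^ a) R ∧
      ¬ (p : ℤ) ∣ Rh.coeff (R.natDegree - K) ∧
      ∀ i, R.natDegree - K < i → (p : ℤ) ∣ Rh.coeff i := by
  set q := p ^ a with hqdef
  have hq : 0 < q := pow_pos hp.pos _
  have hq0 : (q : ℚ) ≠ 0 := by exact_mod_cast hq.ne'
  set n := R.natDegree with hn
  have hdiv : ∀ i, (q : ℤ) ^ (n - K) ∣ R.coeff i * (q : ℤ) ^ i := by
    intro i
    rcases le_or_gt (n - K) i with h1 | h1
    · exact (pow_dvd_pow _ h1).mul_left _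
    · have h2 := hK2 (n - i) (by omega) (by omega)
      rw [show n - (n - i) = i by omega] at h2
      have h3 : (q : ℤ) ^ (n - K) = (q : ℤ) ^ (n - i - K) * (q : ℤ) ^ i := by
        rw [← pow_add]
        congr 1
        omega
      rw [h3]
      apply mul_dvd_mul_right
      rw [hqdef]
      push_cast
      exact h2
  obtain ⟨Rh, hRh⟩ : ∃ Rh : ℤ[X], R.comp (C (q : ℤ) * X) = C ((q : ℤ) ^ (n - K)) * Rh := by
    have : C ((q : ℤ) ^ (n - K)) ∣ R.comp (C (q : ℤ) * X) := by
      rw [C_dvd_iff_dvd_coeff]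
      intro i
      rw [comp_C_mul_X_coeff]
      exact hdiv i
    exact this
  have hRhc : ∀ i, (q : ℤ) ^ (n - K) * Rh.coeff i = R.coeff i * (q : ℤ) ^ i := by
    intro i
    have := congrArg (fun f => coeff f i) hRh
    simp only [comp_C_mul_X_coeff, coeff_C_mul] at this
    exact this.symm
  have hqZ : (q : ℤ) ≠ 0 := by exact_mod_cast hq.ne'
  have hRh0 : Rh.coeff (n - K) = R.coeff (n - K) := by
    have h1 := hRhc (n - K)
    rw [mul_comm (R.coeff _)] at h1
    exact mul_left_cancel₀ (pow_ne_zero _ hqZ) h1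
  have hpq : (p : ℤ) ∣ (q : ℤ) := by
    rw [hqdef]
    push_cast
    exact dvd_pow_self _ ha.ne'
  refine ⟨Rh, ?_, by rw [hRh0]; exact hK1, ?_⟩
  · ext i
    rw [coeff_map, coeff_C_mul, tw_coeff, ← hn]
    have h1 := hRhc i
    have h2 : (q : ℚ) ^ (n - K) * (Rh.coeff i : ℚ) = (R.coeff i : ℚ) * (q : ℚ) ^ i := by
      exact_mod_cast h1
    have h3 : (q : ℚ) ^ n = (q : ℚ) ^ (n - K) * (q : ℚ) ^ K := by
      rw [← pow_add]
      congr 1
      omega
    change (Rh.coeff i : ℚ) = _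
    rw [h3, ← h2]
    field_simp
  · intro i hi
    have h1 := hRhc i
    have h2 : (q : ℤ) ^ i = (q : ℤ) ^ (n - K) * (q : ℤ) ^ (i - (n - K)) := by
      rw [← pow_add]
      congr 1
      omega
    rw [h2, mul_left_comm] at h1
    have h3 := mul_left_cancel₀ (pow_ne_zero _ hqZ) h1
    rw [h3]
    exact (hpq.trans (dvd_pow_self _ (by omega))).mul_left _

/-- the cyclotomic part has degree at most `n - 2 K` -/
theorem cyc_bound {p a : ℕ} (hp : p.Prime) (ha : 0 < a) {R : ℤ[X]} (hR : R.Monic)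
    (hW : ∀ z : ℂ, aeval z (tw (p ^ a) R) = 0 → ‖z‖ = 1) {K : ℕ}
    (hK : K ≤ R.natDegree) (hK1 : ¬ (p : ℤ) ∣ R.coeff (R.natDegree - K))
    (hK2 : ∀ j, K ≤ j → j ≤ R.natDegree → ((p : ℤ) ^ a) ^ (j - K) ∣ R.coeff (R.natDegree - j))
    {G : ℚ[X]} (hGP : G ∣ tw (p ^ a) R) {m k : ℕ} (hm : 0 < m) (hGm : G ∣ (X ^ m - 1) ^ k) :
    G.natDegree + 2 * K ≤ R.natDegree := by
  have : Fact p.Prime := ⟨hp⟩
  have hq : 0 < p ^ a := pow_pos hp.pos _
  have hqK : (((p ^ a : ℕ) : ℚ) ^ K) ≠ 0 := pow_ne_zero _ (by exact_mod_cast hq.ne')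
  obtain ⟨Rh, hRh, hRh1, hRh2⟩ := exists_Rh hp ha hK hK1 hK2
  set n := R.natDegree with hn
  set P := tw (p ^ a) R with hP
  have hPm : P.Monic := tw_monic hq hR
  have hPd : P.natDegree = n := tw_natDegree hq hR.ne_zero
  obtain ⟨c, hc, hsym⟩ := coeff_symm hPm hW
  rw [hPd] at hsym
  have hRhc : ∀ i, (Rh.coeff i : ℚ) = ((p ^ a : ℕ) : ℚ) ^ K * P.coeff i := by
    intro i
    have := congrArg (fun f => coeff f i) hRh
    simp only [coeff_map, coeff_C_mul] at this
    exact this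
  -- `c = ± 1`
  have hc1 : c = 1 ∨ c = -1 := by
    have h1 := hsym 0 (Nat.zero_le _)
    have h2 := hsym n le_rfl
    rw [Nat.sub_zero] at h1
    rw [Nat.sub_self] at h2
    have h3 : P.coeff n = 1 := by rw [← hPd]; exact hPm
    rw [h3] at h1 h2
    rw [h2, mul_one] at h1
    have h4 : (c - 1) * (c + 1) = 0 := by linear_combination -h1
    rcases mul_eq_zero.1 h4 with h5 | h5
    · left; linarith
    · right; linarith
  have hRhsym : ∀ i ≤ n, Rh.coeff (n - i) = Rh.coeff i ∨ Rh.coeff (n - i) = - Rh.coeff i := by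
    intro i hi
    have h1 := hsym i hi
    rcases hc1 with h2 | h2
    · left
      have : (Rh.coeff (n - i) : ℚ) = (Rh.coeff i : ℚ) := by
        rw [hRhc, hRhc, h1, h2, one_mul]
      exact_mod_cast this
    · right
      have : (Rh.coeff (n - i) : ℚ) = ((- Rh.coeff i : ℤ) : ℚ) := by
        push_cast
        rw [hRhc, hRhc, h1, h2]
        ring
      exact_mod_cast this
  have hlow : ∀ i < K, (p : ℤ) ∣ Rh.coeff i := by
    intro i hi
    have h1 : (p : ℤ) ∣ Rh.coeff (n - i) := hRh2 _ (by omega)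
    rcases hRhsym i (by omega) with h2 | h2
    · rwa [h2] at h1
    · rw [h2] at h1
      exact (dvd_neg).1 h1
  -- integral form of `G`
  have hG0 : G ≠ 0 := ne_zero_of_dvd_ne_zero hPm.ne_zero hGP
  have hmon : ((X ^ m - 1 : ℤ[X]) ^ k).Monic := (monic_X_pow_sub_C (1 : ℤ) hm.ne').pow k
  have hGm' : G ∣ ((X ^ m - 1 : ℤ[X]) ^ k).map (algebraMap ℤ ℚ) := by
    rw [Polynomial.map_pow, Polynomial.map_sub, Polynomial.map_pow, map_X, Polynomial.map_one]
    exact hGm
  obtain ⟨G1, hG1⟩ := IsIntegrallyClosed.eq_map_mul_C_of_dvd ℚ hmon hGm'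
  have hl : G.leadingCoeff ≠ 0 := leadingCoeff_ne_zero.2 hG0
  have hG1m : G1.Monic := by
    have h2 : (G1.map (algebraMap ℤ ℚ)).Monic := by
      have h3 : (G1.map (algebraMap ℤ ℚ) * C G.leadingCoeff).leadingCoeff =
          G.leadingCoeff := by rw [hG1]
      rw [leadingCoeff_mul, leadingCoeff_C] at h3
      exact mul_right_cancel₀ hl (by rw [h3, one_mul])
    exact monic_of_injective (FaithfulSMul.algebraMap_injective ℤ ℚ) h2
  have hG1d : G1.natDegree = G.natDegree := by
    rw [← hG1, natDegree_mul_C hl,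
      natDegree_map_eq_of_injective (FaithfulSMul.algebraMap_injective ℤ ℚ)]
  have hG1G : G1.map (algebraMap ℤ ℚ) ∣ G := ⟨_, hG1.symm⟩
  have hG1dvd : G1 ∣ (X ^ m - 1 : ℤ[X]) ^ k := by
    apply hmon.dvd_of_fraction_map_dvd_fraction_map (K := ℚ) hG1m
    exact hG1G.trans hGm'
  have hG1Rh : G1 ∣ Rh := by
    rw [IsPrimitive.Int.dvd_iff_map_cast_dvd_map_cast _ _ hG1m.isPrimitive, hRh]
    exact (hG1G.trans hGP).mul_left _
  obtain ⟨H1, hH1⟩ := hG1Rh
  set f : ℤ →+* ZMod p := Int.castRingHom (ZMod p) with hf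
  -- constant coefficient of `G1`
  have hconst : (G1.map f).coeff 0 ≠ 0 := by
    obtain ⟨T, hT⟩ := hG1dvd
    have h1 := congrArg (fun g => (g.map f).eval 0) hT
    simp only [Polynomial.map_mul, Polynomial.map_pow, Polynomial.map_sub, map_X,
      Polynomial.map_one, eval_mul, eval_pow, eval_sub, eval_X, eval_one, zero_pow hm.ne'] at h1
    intro h2
    rw [coeff_zero_eq_eval_zero] at h2
    rw [h2, zero_mul] at h1
    have h3 : ((0 : ZMod p) - 1) ^ k ≠ 0 := pow_ne_zero _ (by simp)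
    exact h3 h1
  have hRhf : (Rh.map f).natDegree = n - K := by
    apply le_antisymm
    · rw [natDegree_le_iff_coeff_eq_zero]
      intro i hi
      rw [coeff_map]
      change ((Rh.coeff i : ℤ) : ZMod p) = 0
      rw [ZMod.intCast_zmod_eq_zero_iff_dvd]
      exact hRh2 i hi
    · apply le_natDegree_of_ne_zero
      rw [coeff_map]
      change ((Rh.coeff (n - K) : ℤ) : ZMod p) ≠ 0
      rw [Ne, ZMod.intCast_zmod_eq_zero_iff_dvd]
      exact hRh1
  have hRhne : Rh.map f ≠ 0 := by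
    intro h0
    apply hRh1
    have := congrArg (fun g => coeff g (n - K)) h0
    simp only [coeff_map, coeff_zero] at this
    rwa [← ZMod.intCast_zmod_eq_zero_iff_dvd]
  have hXK : X ^ K ∣ Rh.map f := by
    rw [X_pow_dvd_iff]
    intro d hd
    rw [coeff_map]
    change ((Rh.coeff d : ℤ) : ZMod p) = 0
    rw [ZMod.intCast_zmod_eq_zero_iff_dvd]
    exact hlow d hd
  have hH1f : H1.map f ≠ 0 := by
    intro h0
    rw [hH1, Polynomial.map_mul, h0, mul_zero] at hRhne
    exact hRhne rfl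
  have hXKH : X ^ K ∣ H1.map f := by
    rw [hH1, Polynomial.map_mul] at hXK
    have hX : ¬ (X : (ZMod p)[X]) ∣ G1.map f := by
      rw [X_dvd_iff]
      exact hconst
    exact prime_X.pow_dvd_of_dvd_mul_left K hX hXK
  have h1 : K ≤ (H1.map f).natDegree := by
    have := natDegree_le_of_dvd hXKH hH1f
    rwa [natDegree_X_pow] at this
  have h2 : n - K = G1.natDegree + (H1.map f).natDegree := by
    rw [← hRhf, hH1, Polynomial.map_mul, natDegree_mul (hG1m.map f).ne_zero hH1f,
      hG1m.natDegree_map]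
  omega

theorem mat_charpoly_smul {n K : Type*} [Fintype n] [DecidableEq n] [Field K] (M : Matrix n n K)
    (c : K) : (c • M).charpoly.comp (C c * X) = C (c ^ Fintype.card n) * M.charpoly := by
  have h1 : (c • M).charpoly.comp (C c * X) = (compRingHom (C c * X)) (c • M).charpoly := rfl
  rw [h1, Matrix.charpoly, RingHom.map_det]
  have h2 : (compRingHom (C c * X)).mapMatrix (Matrix.charmatrix (c • M)) =
      C c • Matrix.charmatrix M := by
    ext i j
    simp only [RingHom.mapMatrix_apply, Matrix.map_apply, Matrix.charmatrix_apply,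
      Matrix.smul_apply, smul_eq_mul, coe_compRingHom_apply, sub_comp, C_mul, mul_sub]
    by_cases hij : i = j
    · subst hij
      simp
    · simp [Matrix.diagonal_apply_ne _ hij]
  rw [h2, Matrix.det_smul, C_pow]
  rfl

theorem charpoly_smul_comp {K V : Type*} [Field K] [AddCommGroup V] [Module K V]
    [FiniteDimensional K V] (F : End K V) (c : K) :
    (c • F).charpoly.comp (C c * X) = C (c ^ finrank K V) * F.charpoly := by
  classical
  let b := Module.finBasis K V
  rw [← LinearMap.charpoly_toMatrix (c • F) b, ← LinearMap.charpoly_toMatrix F b, map_smul,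
    mat_charpoly_smul, Fintype.card_fin]

/-- the characteristic polynomial of `F` from the one of `q F` -/
theorem tw_charpoly {K V : Type*} [Field K] [CharZero K] [AddCommGroup V] [Module K V]
    [FiniteDimensional K V] (F : End K V) {q : ℕ} (hq : 0 < q) {R : ℤ[X]}
    (hR : R.map (Int.castRingHom K) = ((q : K) • F).charpoly) :
    (tw q R).map (algebraMap ℚ K) = F.charpoly := by
  have hq0 : (q : K) ≠ 0 := by exact_mod_cast hq.ne'
  have hinj : Function.Injective (Int.castRingHom K) := Int.cast_injective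
  have hn : R.natDegree = finrank K V := by
    rw [← natDegree_map_eq_of_injective hinj, hR, LinearMap.charpoly_natDegree]
  have h1 := charpoly_smul_comp F (q : K)
  rw [← hR, ← hn] at h1
  have h2 : F.charpoly = C (((q : K) ^ R.natDegree)⁻¹) *
      (R.map (Int.castRingHom K)).comp (C (q : K) * X) := by
    rw [h1, ← mul_assoc, ← C_mul, inv_mul_cancel₀ (pow_ne_zero _ hq0), C_1, one_mul]
  rw [h2]
  unfold tw
  rw [Polynomial.map_mul, map_C, Polynomial.map_comp, Polynomial.map_map, Polynomial.map_mul,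
    map_C, map_X]
  have h3 : (algebraMap ℚ K).comp (Int.castRingHom ℚ) = Int.castRingHom K := RingHom.ext_int _ _
  rw [h3]
  congr 2
  · simp
  · simp

end Pool.Agent.Helper44.FrobHW
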